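import Pool.Agent.Lib.MP_cc2398_al.Spec

/-!
# MP_cc2398_al, Ln/HP: the theorem of Hirsch and Plotkin

`LN K`: the subgroup `K` is locally nilpotent.  If `A`, `B` are locally nilpotent and normalised by `M ≥ A, B` then
`A ⊔ B` is locally nilpotent.
-/

set_option autoImplicit false

namespace Pool.Agent.MPcc2398

universe u

/-- The subgroup `K` is locally nilpotent: each finite subset of `K` generates a nilpotent subgroup. -/
def LN {G : Type u} [Group G] (K : Subgroup G) : Prop :=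
  ∀ s : Finset G, (s : Set G) ⊆ K → Group.IsNilpotent ↥(Subgroup.closure (s : Set G))

theorem LN.mono {G : Type u} [Group G] {K K' : Subgroup G} (h : LN K) (hK : K' ≤ K) : LN K' :=
  fun s hs => h s (hs.trans hK)

namespace Ln

theorem nil_mono {G : Type u} [Group G] {A B : Subgroup G} (h : A ≤ B) (hB : Group.IsNilpotent B) :
    Group.IsNilpotent A := by
  have : Group.IsNilpotent (A.subgroupOf B) := Subgroup.isNilpotent _
  exact (Group.isNilpotent_congr (Subgroup.subgroupOfEquivOfLe h)).1 this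

/-- A subgroup generated by a set is normalised as soon as the generators are mapped into it. -/
theorem inv_closure {G : Type u} [Group G] {X : Set G} {D : Subgroup G}
    (h : ∀ x ∈ X, (∀ d ∈ D, x * d * x⁻¹ ∈ D) ∧ ∀ d ∈ D, x⁻¹ * d * x ∈ D) : Inv (Subgroup.closure X) D := by
  intro x hx
  have key : (∀ d ∈ D, x * d * x⁻¹ ∈ D) ∧ ∀ d ∈ D, x⁻¹ * d * x ∈ D := by
    induction hx using Subgroup.closure_induction with
    | mem y hy => exact h y hy
    | one => simp
    | mul a b _ _ ha hb =>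
      refine ⟨fun d hd => ?_, fun d hd => ?_⟩
      · have := ha.1 _ (hb.1 d hd)
        have e : a * b * d * (a * b)⁻¹ = a * (b * d * b⁻¹) * a⁻¹ := by group
        rw [e]; exact this
      · have := hb.2 _ (ha.2 d hd)
        have e : (a * b)⁻¹ * d * (a * b) = b⁻¹ * (a⁻¹ * d * a) * b := by group
        rw [e]; exact this
    | inv a _ ha =>
      refine ⟨fun d hd => ?_, fun d hd => ?_⟩
      · rw [inv_inv]; exact ha.2 d hd
      · rw [inv_inv]; exact ha.1 d hd
  exact key.1

theorem inv_closure_right {G : Type u} [Group G] {L : Subgroup G} {X : Set G}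
    (h : ∀ l ∈ L, ∀ x ∈ X, l * x * l⁻¹ ∈ Subgroup.closure X) : Inv L (Subgroup.closure X) := by
  intro l hl m hm
  induction hm using Subgroup.closure_induction with
  | mem y hy => exact h l hl y hy
  | one => simp
  | mul a b _ _ ha hb =>
    have e : l * (a * b) * l⁻¹ = (l * a * l⁻¹) * (l * b * l⁻¹) := by group
    rw [e]; exact Subgroup.mul_mem _ ha hb
  | inv a _ ha =>
    have e : l * a⁻¹ * l⁻¹ = (l * a * l⁻¹)⁻¹ := by group
    rw [e]; exact Subgroup.inv_mem _ ha

open Classical in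
/-- the iterated commutators -/
noncomputable def E {G : Type u} [Group G] (X C : Finset G) : ℕ → Finset G
  | 0 => C
  | n + 1 => ((X ∪ X.image (fun x => x⁻¹)) ×ˢ E X C n).image (fun p => p.2 * p.1 * p.2⁻¹ * p.1⁻¹)

theorem E_mem {G : Type u} [Group G] {X C : Finset G} {n : ℕ} {x d : G} (hx : x ∈ X ∨ x⁻¹ ∈ X)
    (hd : d ∈ E X C n) : d * x * d⁻¹ * x⁻¹ ∈ E X C (n + 1) := by
  classical
  rw [E, Finset.mem_image]
  refine ⟨(x, d), Finset.mem_product.2 ⟨?_, hd⟩, rfl⟩
  rw [Finset.mem_union]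
  rcases hx with hx | hx
  · exact Or.inl hx
  · exact Or.inr (Finset.mem_image.2 ⟨x⁻¹, hx, inv_inv x⟩)

theorem E_lcs {G : Type u} [Group G] {X C : Finset G} {P : Subgroup G} (hX : (X : Set G) ⊆ P)
    (hC : (C : Set G) ⊆ P) (n : ℕ) : ∀ d ∈ E X C n, d ∈ P.lowerCentralSeries n := by
  classical
  induction n with
  | zero => intro d hd; exact hC hd
  | succ n ih =>
    intro d hd
    rw [E, Finset.mem_image] at hd
    obtain ⟨⟨x, e⟩, hxe, rfl⟩ := hd
    rw [Finset.mem_product] at hxe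
    obtain ⟨hx, he⟩ := hxe
    have hxP : x ∈ P := by
      rcases Finset.mem_union.1 hx with h | h
      · exact hX h
      · obtain ⟨y, hy, hyx⟩ := Finset.mem_image.1 h
        simp only at hyx
        rw [← hyx]
        exact P.inv_mem (hX hy)
    rw [Subgroup.lowerCentralSeries_succ]
    exact Subgroup.commutator_mem_commutator (ih e he) hxP

/-- **Ncl.**  If `closure (X ∪ C)` is nilpotent then the normal closure of `C` under `closure X` is finitely
generated. -/
theorem ncl {G : Type u} [Group G] (X C : Finset G) (P : Subgroup G) (hX : (X : Set G) ⊆ P)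
    (hC : (C : Set G) ⊆ P) (hP : Group.IsNilpotent P) :
    ∃ D : Finset G, Subgroup.closure (D : Set G) =
      NC (Subgroup.closure (X : Set G)) (Subgroup.closure (C : Set G)) := by
  classical
  obtain ⟨c, hc⟩ := (Subgroup.isNilpotent_iff_lowerCentralSeries P).1 hP
  refine ⟨(Finset.range (c + 1)).biUnion (E X C), le_antisymm ?_ ?_⟩
  · rw [Subgroup.closure_le]
    have h1 : ∀ n, ∀ d ∈ E X C n, d ∈ NC (Subgroup.closure (X : Set G)) (Subgroup.closure (C : Set G)) := by
      intro n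
      induction n with
      | zero => intro d hd; exact le_NC _ _ (Subgroup.subset_closure hd)
      | succ n ih =>
        intro d hd
        rw [E, Finset.mem_image] at hd
        obtain ⟨⟨x, e⟩, hxe, rfl⟩ := hd
        rw [Finset.mem_product] at hxe
        obtain ⟨hx, he⟩ := hxe
        have hxX : x ∈ Subgroup.closure (X : Set G) := by
          rcases Finset.mem_union.1 hx with h | h
          · exact Subgroup.subset_closure h
          · obtain ⟨y, hy, hyx⟩ := Finset.mem_image.1 h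
            simp only at hyx
            rw [← hyx]
            exact Subgroup.inv_mem _ (Subgroup.subset_closure hy)
        have h2 := inv_NC (Subgroup.closure (X : Set G)) (Subgroup.closure (C : Set G)) x hxX _
          (Subgroup.inv_mem _ (ih e he))
        have e3 : e * x * e⁻¹ * x⁻¹ = e * (x * e⁻¹ * x⁻¹) := by group
        show e * x * e⁻¹ * x⁻¹ ∈ _
        rw [e3]
        exact Subgroup.mul_mem _ (ih e he) h2
    intro d hd
    obtain ⟨n, _, hn⟩ := Finset.mem_biUnion.1 (Finset.mem_coe.1 hd)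
    exact h1 n d hn
  · have hE : ∀ n, n ≤ c → ∀ d ∈ E X C n,
        d ∈ Subgroup.closure (((Finset.range (c + 1)).biUnion (E X C) : Finset G) : Set G) := by
      intro n hn d hd
      refine Subgroup.subset_closure (Finset.mem_coe.2 (Finset.mem_biUnion.2 ⟨n, ?_, hd⟩))
      rw [Finset.mem_range]; omega
    have hE1 : ∀ d ∈ E X C c, d = 1 := by
      intro d hd
      have := E_lcs hX hC c d hd
      rw [hc, Subgroup.mem_bot] at this
      exact this
    have hstep : ∀ x : G, (x ∈ X ∨ x⁻¹ ∈ X) → ∀ n, n ≤ c → ∀ d ∈ E X C n, x * d * x⁻¹ ∈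
        Subgroup.closure (((Finset.range (c + 1)).biUnion (E X C) : Finset G) : Set G) := by
      intro x hx n hn d hd
      rcases Nat.lt_or_ge n c with h | h
      · have h2 := hE (n + 1) h _ (E_mem hx hd)
        have e3 : x * d * x⁻¹ = (d * x * d⁻¹ * x⁻¹)⁻¹ * d := by group
        rw [e3]
        exact Subgroup.mul_mem _ (Subgroup.inv_mem _ h2) (hE n hn d hd)
      · have h2 : n = c := le_antisymm hn h
        subst h2
        rw [hE1 d hd]
        simp
    have hgen : ∀ x : G, (x ∈ X ∨ x⁻¹ ∈ X) → ∀ d ∈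
        Subgroup.closure (((Finset.range (c + 1)).biUnion (E X C) : Finset G) : Set G), x * d * x⁻¹ ∈
        Subgroup.closure (((Finset.range (c + 1)).biUnion (E X C) : Finset G) : Set G) := by
      intro x hx d hd
      induction hd using Subgroup.closure_induction with
      | mem y hy =>
        obtain ⟨n, hn, hn'⟩ := Finset.mem_biUnion.1 (Finset.mem_coe.1 hy)
        exact hstep x hx n (by rw [Finset.mem_range] at hn; omega) y hn'
      | one => simp
      | mul a b _ _ ha hb =>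
        have e : x * (a * b) * x⁻¹ = (x * a * x⁻¹) * (x * b * x⁻¹) := by group
        rw [e]; exact Subgroup.mul_mem _ ha hb
      | inv a _ ha =>
        have e : x * a⁻¹ * x⁻¹ = (x * a * x⁻¹)⁻¹ := by group
        rw [e]; exact Subgroup.inv_mem _ ha
    have hinv : Inv (Subgroup.closure (X : Set G))
        (Subgroup.closure (((Finset.range (c + 1)).biUnion (E X C) : Finset G) : Set G)) := by
      refine inv_closure fun x hx => ⟨fun d hd => hgen x (Or.inl hx) d hd, fun d hd => ?_⟩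
      have := hgen x⁻¹ (Or.inr (by rw [inv_inv]; exact hx)) d hd
      rwa [inv_inv] at this
    have hCle : Subgroup.closure (C : Set G) ≤
        Subgroup.closure (((Finset.range (c + 1)).biUnion (E X C) : Finset G) : Set G) := by
      rw [Subgroup.closure_le]
      intro d hd
      exact hE 0 (Nat.zero_le _) d hd
    refine iSup_le fun x => ?_
    have := cj_mono (x : G) hCle
    rwa [cj_eq_of_inv hinv x.2] at this

/-- A finite subset of `A ⊔ B` lies in the group generated by finite subsets of `A` and `B`. -/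
theorem fin_sup {G : Type u} [Group G] (A B : Subgroup G) (s : Finset G) (hs : (s : Set G) ⊆ (A ⊔ B : Subgroup G)) :
    ∃ X Y : Finset G, (X : Set G) ⊆ A ∧ (Y : Set G) ⊆ B ∧
      (s : Set G) ⊆ (Subgroup.closure (X : Set G) ⊔ Subgroup.closure (Y : Set G) : Subgroup G) := by
  classical
  have h1 : ∀ g ∈ A ⊔ B, ∃ X Y : Finset G, (X : Set G) ⊆ A ∧ (Y : Set G) ⊆ B ∧
      g ∈ Subgroup.closure (X : Set G) ⊔ Subgroup.closure (Y : Set G) := by
    intro g hg
    rw [Subgroup.sup_eq_closure] at hg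
    induction hg using Subgroup.closure_induction with
    | mem y hy =>
      rcases hy with hy | hy
      · refine ⟨{y}, ∅, by simpa using hy, by simp, ?_⟩
        exact Subgroup.mem_sup_left (Subgroup.subset_closure (by simp))
      · refine ⟨∅, {y}, by simp, by simpa using hy, ?_⟩
        exact Subgroup.mem_sup_right (Subgroup.subset_closure (by simp))
    | one => exact ⟨∅, ∅, by simp, by simp, Subgroup.one_mem _⟩
    | mul a b _ _ ha hb =>
      obtain ⟨X, Y, hX, hY, h⟩ := ha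
      obtain ⟨X', Y', hX', hY', h'⟩ := hb
      refine ⟨X ∪ X', Y ∪ Y', ?_, ?_, ?_⟩
      · rw [Finset.coe_union]; exact Set.union_subset hX hX'
      · rw [Finset.coe_union]; exact Set.union_subset hY hY'
      · refine Subgroup.mul_mem _ ?_ ?_
        · exact sup_le_sup (Subgroup.closure_mono (by simp)) (Subgroup.closure_mono (by simp)) h
        · exact sup_le_sup (Subgroup.closure_mono (by simp)) (Subgroup.closure_mono (by simp)) h'
    | inv a _ ha =>
      obtain ⟨X, Y, hX, hY, h⟩ := ha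
      exact ⟨X, Y, hX, hY, Subgroup.inv_mem _ h⟩
  induction s using Finset.induction_on with
  | empty => exact ⟨∅, ∅, by simp, by simp, by simp⟩
  | insert a s _ ih =>
    rw [Finset.coe_insert, Set.insert_subset_iff] at hs
    obtain ⟨X, Y, hX, hY, h⟩ := ih hs.2
    obtain ⟨X', Y', hX', hY', h'⟩ := h1 a hs.1
    refine ⟨X ∪ X', Y ∪ Y', ?_, ?_, ?_⟩
    · rw [Finset.coe_union]; exact Set.union_subset hX hX'
    · rw [Finset.coe_union]; exact Set.union_subset hY hY'
    · rw [Finset.coe_insert, Set.insert_subset_iff]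
      constructor
      · exact sup_le_sup (Subgroup.closure_mono (by simp)) (Subgroup.closure_mono (by simp)) h'
      · intro g hg
        exact sup_le_sup (Subgroup.closure_mono (by simp)) (Subgroup.closure_mono (by simp)) (h hg)

end Ln

/-- **HP.**  The theorem of Hirsch and Plotkin. -/
theorem vHP (hFit : S_Fit.{u}) {G : Type u} [Group G] (M A B : Subgroup G) (hAM : A ≤ M) (hBM : B ≤ M)
    (hMA : Inv M A) (hMB : Inv M B) (hA : LN A) (hB : LN B) : LN (A ⊔ B) := by
  classical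
  intro s hs
  obtain ⟨X, Y, hX, hY, hXY⟩ := Ln.fin_sup A B s hs
  set X' := Subgroup.closure (X : Set G) with hX'
  set Y' := Subgroup.closure (Y : Set G) with hY'
  have hX'A : X' ≤ A := (Subgroup.closure_le A).2 hX
  have hY'B : Y' ≤ B := (Subgroup.closure_le B).2 hY
  -- the commutators
  set C : Finset G := (X ×ˢ Y).image (fun p => p.1 * p.2 * p.1⁻¹ * p.2⁻¹) with hC
  have hCA : (C : Set G) ⊆ A := by
    intro g hg
    obtain ⟨⟨x, y⟩, hp, rfl⟩ := Finset.mem_image.1 (Finset.mem_coe.1 hg)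
    rw [Finset.mem_product] at hp
    have hx := hX hp.1
    have hy := hBM (hY hp.2)
    have h1 := hMA y hy _ (A.inv_mem hx)
    have e : x * y * x⁻¹ * y⁻¹ = x * (y * x⁻¹ * y⁻¹) := by group
    show x * y * x⁻¹ * y⁻¹ ∈ A
    rw [e]; exact A.mul_mem hx h1
  have hCB : (C : Set G) ⊆ B := by
    intro g hg
    obtain ⟨⟨x, y⟩, hp, rfl⟩ := Finset.mem_image.1 (Finset.mem_coe.1 hg)
    rw [Finset.mem_product] at hp
    have hx := hAM (hX hp.1)
    have hy := hY hp.2
    have h1 := hMB x hx _ hy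
    show x * y * x⁻¹ * y⁻¹ ∈ B
    exact B.mul_mem h1 (B.inv_mem hy)
  -- first step
  obtain ⟨D₁, hD₁⟩ := Ln.ncl X C (Subgroup.closure ((X ∪ C : Finset G) : Set G))
    (fun g hg => Subgroup.subset_closure (by simp only [Finset.coe_union]; exact Or.inl hg))
    (fun g hg => Subgroup.subset_closure (by simp only [Finset.coe_union]; exact Or.inr hg))
    (hA _ (by rw [Finset.coe_union]; exact Set.union_subset hX hCA))
  set Q₁ := Subgroup.closure (D₁ : Set G) with hQ₁
  have hQX : Inv X' Q₁ := by rw [hD₁]; exact inv_NC _ _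
  have hCQ : Subgroup.closure (C : Set G) ≤ Q₁ := by rw [hD₁]; exact le_NC _ _
  have hQ₁A : Q₁ ≤ A := by
    rw [hD₁]
    refine iSup_le fun x => ?_
    exact cj_le_of_le ((Subgroup.closure_le A).2 hCA) (hX'A x.2)
  have hQ₁B : Q₁ ≤ B := by
    rw [hD₁]
    refine iSup_le fun x => ?_
    have h1 := cj_mono (x : G) ((Subgroup.closure_le B).2 hCB)
    rwa [cj_eq_of_inv hMB (hAM (hX'A x.2))] at h1
  have hD₁A : (D₁ : Set G) ⊆ A := fun g hg => hQ₁A (Subgroup.subset_closure hg)
  have hD₁B : (D₁ : Set G) ⊆ B := fun g hg => hQ₁B (Subgroup.subset_closure hg)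
  -- second step
  obtain ⟨D₂, hD₂⟩ := Ln.ncl Y D₁ (Subgroup.closure ((Y ∪ D₁ : Finset G) : Set G))
    (fun g hg => Subgroup.subset_closure (by simp only [Finset.coe_union]; exact Or.inl hg))
    (fun g hg => Subgroup.subset_closure (by simp only [Finset.coe_union]; exact Or.inr hg))
    (hB _ (by rw [Finset.coe_union]; exact Set.union_subset hY hD₁B))
  rw [← hQ₁] at hD₂
  set Q₂ := Subgroup.closure (D₂ : Set G) with hQ₂
  have hQY : Inv Y' Q₂ := by rw [hD₂]; exact inv_NC _ _
  have hQQ : Q₁ ≤ Q₂ := by rw [hD₂]; exact le_NC _ _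
  have hQ₂B : Q₂ ≤ B := by
    rw [hD₂]
    refine iSup_le fun y => ?_
    exact cj_le_of_le hQ₁B (hY'B y.2)
  have hQ₂A : Q₂ ≤ A := by
    rw [hD₂]
    refine iSup_le fun y => ?_
    have h1 := cj_mono (y : G) hQ₁A
    rwa [cj_eq_of_inv hMA (hBM (hY'B y.2))] at h1
  have hD₂A : (D₂ : Set G) ⊆ A := fun g hg => hQ₂A (Subgroup.subset_closure hg)
  have hD₂B : (D₂ : Set G) ⊆ B := fun g hg => hQ₂B (Subgroup.subset_closure hg)
  -- commutators
  have hc1 : ∀ y ∈ Y, ∀ x ∈ X', x * y * x⁻¹ * y⁻¹ ∈ Q₁ := by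
    intro y hy x hx
    induction hx using Subgroup.closure_induction with
    | mem x hx =>
      exact hCQ (Subgroup.subset_closure (Finset.mem_coe.2 (Finset.mem_image.2
        ⟨(x, y), Finset.mem_product.2 ⟨hx, hy⟩, rfl⟩)))
    | one => simp
    | mul a b ha' _ ha hb =>
      have e : a * b * y * (a * b)⁻¹ * y⁻¹ = (a * (b * y * b⁻¹ * y⁻¹) * a⁻¹) * (a * y * a⁻¹ * y⁻¹) := by group
      rw [e]
      exact Q₁.mul_mem (hQX a ha' _ hb) ha
    | inv a ha' ha =>
      have h1 := hQX a⁻¹ (X'.inv_mem ha') _ (Q₁.inv_mem ha)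
      have e : a⁻¹ * y * a⁻¹⁻¹ * y⁻¹ = a⁻¹ * (a * y * a⁻¹ * y⁻¹)⁻¹ * a⁻¹⁻¹ := by group
      rw [e]; exact h1
  have hc2 : ∀ x ∈ X', ∀ y ∈ Y', x * y * x⁻¹ * y⁻¹ ∈ Q₂ := by
    intro x hx y hy
    induction hy using Subgroup.closure_induction with
    | mem y hy => exact hQQ (hc1 y hy x hx)
    | one => simp
    | mul a b ha' _ ha hb =>
      have e : x * (a * b) * x⁻¹ * (a * b)⁻¹ = (x * a * x⁻¹ * a⁻¹) * (a * (x * b * x⁻¹ * b⁻¹) * a⁻¹) := by group
      rw [e]
      exact Q₂.mul_mem ha (hQY a ha' _ hb)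
    | inv a ha' ha =>
      have h1 := hQY a⁻¹ (Y'.inv_mem ha') _ (Q₂.inv_mem ha)
      have e : x * a⁻¹ * x⁻¹ * a⁻¹⁻¹ = a⁻¹ * (x * a * x⁻¹ * a⁻¹)⁻¹ * a⁻¹⁻¹ := by group
      rw [e]; exact h1
  -- `X'` normalises `Q₂`
  have hQX2 : Inv X' Q₂ := by
    intro x hx q hq
    have h1 : cj x Q₂ ≤ Q₂ := by
      have h2 : cj x Q₂ = ⨆ y : Y', cj (x * (y : G)) Q₁ := by
        conv_lhs => rw [hD₂]
        unfold NC
        rw [cj, Subgroup.map_iSup]
        refine iSup_congr fun y => ?_
        exact (cj_mul x (y : G) Q₁).symm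
      rw [h2]
      refine iSup_le fun y => ?_
      intro g hg
      obtain ⟨q, hq, rfl⟩ := mem_cj.1 hg
      have h3 := hc2 x hx y y.2
      have h4 : (y : G) * (x * q * x⁻¹) * (y : G)⁻¹ ∈ Q₂ := hQY y y.2 _ (hQQ (hQX x hx q hq))
      have e : x * (y : G) * q * (x * (y : G))⁻¹ =
          (x * (y : G) * x⁻¹ * (y : G)⁻¹) * ((y : G) * (x * q * x⁻¹) * (y : G)⁻¹) *
            (x * (y : G) * x⁻¹ * (y : G)⁻¹)⁻¹ := by group
      rw [e]
      exact Q₂.mul_mem (Q₂.mul_mem h3 h4) (Q₂.inv_mem h3)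
    exact h1 (conj_mem_cj hq)
  -- the two nilpotent normal subgroups
  have hJQ : Inv (X' ⊔ Y') Q₂ := by
    have h1 : X' ⊔ Y' = Subgroup.closure ((X' : Set G) ∪ Y') := Subgroup.sup_eq_closure _ _
    rw [h1]
    refine Ln.inv_closure fun x hx => ?_
    rcases hx with hx | hx
    · refine ⟨fun d hd => hQX2 x hx d hd, fun d hd => ?_⟩
      have := hQX2 x⁻¹ (X'.inv_mem hx) d hd
      rwa [inv_inv] at this
    · refine ⟨fun d hd => hQY x hx d hd, fun d hd => ?_⟩
      have := hQY x⁻¹ (Y'.inv_mem hx) d hd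
      rwa [inv_inv] at this
  have hA2 : Inv (X' ⊔ Y') (X' ⊔ Q₂) := by
    have h1 : X' ⊔ Y' = Subgroup.closure ((X' : Set G) ∪ Y') := Subgroup.sup_eq_closure _ _
    rw [h1]
    have hX2 : Inv X' (X' ⊔ Q₂) := (inv_self X').sup hQX2
    have hY2 : Inv Y' (X' ⊔ Q₂) := by
      intro y hy m hm
      have h3 : cj y (X' ⊔ Q₂) ≤ X' ⊔ Q₂ := by
        rw [cj_sup, cj_eq_of_inv hQY hy]
        refine sup_le ?_ le_sup_right
        intro g hg
        obtain ⟨x, hx, rfl⟩ := mem_cj.1 hg
        have h4 := hc2 x hx y hy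
        have e : y * x * y⁻¹ = (x * y * x⁻¹ * y⁻¹)⁻¹ * x := by group
        rw [e]
        exact Subgroup.mul_mem _ (Subgroup.inv_mem _ ((le_sup_right : Q₂ ≤ _) h4)) ((le_sup_left : X' ≤ _) hx)
      exact h3 (conj_mem_cj hm)
    refine Ln.inv_closure fun x hx => ?_
    rcases hx with hx | hx
    · refine ⟨fun d hd => hX2 x hx d hd, fun d hd => ?_⟩
      have := hX2 x⁻¹ (X'.inv_mem hx) d hd
      rwa [inv_inv] at this
    · refine ⟨fun d hd => hY2 x hx d hd, fun d hd => ?_⟩
      have := hY2 x⁻¹ (Y'.inv_mem hx) d hd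
      rwa [inv_inv] at this
  have hB2 : Inv (X' ⊔ Y') (Y' ⊔ Q₂) := by
    have h1 : X' ⊔ Y' = Subgroup.closure ((X' : Set G) ∪ Y') := Subgroup.sup_eq_closure _ _
    rw [h1]
    have hY2 : Inv Y' (Y' ⊔ Q₂) := (inv_self Y').sup hQY
    have hX2 : Inv X' (Y' ⊔ Q₂) := by
      intro x hx m hm
      have h3 : cj x (Y' ⊔ Q₂) ≤ Y' ⊔ Q₂ := by
        rw [cj_sup, cj_eq_of_inv hQX2 hx]
        refine sup_le ?_ le_sup_right
        intro g hg
        obtain ⟨y, hy, rfl⟩ := mem_cj.1 hg
        have h4 := hc2 x hx y hy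
        have e : x * y * x⁻¹ = (x * y * x⁻¹ * y⁻¹) * y := by group
        rw [e]
        exact Subgroup.mul_mem _ ((le_sup_right : Q₂ ≤ _) h4) ((le_sup_left : Y' ≤ _) hy)
      exact h3 (conj_mem_cj hm)
    refine Ln.inv_closure fun x hx => ?_
    rcases hx with hx | hx
    · refine ⟨fun d hd => hX2 x hx d hd, fun d hd => ?_⟩
      have := hX2 x⁻¹ (X'.inv_mem hx) d hd
      rwa [inv_inv] at this
    · refine ⟨fun d hd => hY2 x hx d hd, fun d hd => ?_⟩
      have := hY2 x⁻¹ (Y'.inv_mem hx) d hd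
      rwa [inv_inv] at this
  -- `Q₂ ≤ X' ⊔ Y'`
  have hCJ : Subgroup.closure (C : Set G) ≤ X' ⊔ Y' := by
    rw [Subgroup.closure_le]
    intro g hg
    obtain ⟨⟨x, y⟩, hp, rfl⟩ := Finset.mem_image.1 (Finset.mem_coe.1 hg)
    rw [Finset.mem_product] at hp
    have hx : x ∈ X' ⊔ Y' := (le_sup_left : X' ≤ _) (Subgroup.subset_closure hp.1)
    have hy : y ∈ X' ⊔ Y' := (le_sup_right : Y' ≤ _) (Subgroup.subset_closure hp.2)
    exact Subgroup.mul_mem _ (Subgroup.mul_mem _ (Subgroup.mul_mem _ hx hy) (Subgroup.inv_mem _ hx))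
      (Subgroup.inv_mem _ hy)
  have hQ₁J : Q₁ ≤ X' ⊔ Y' := by
    rw [hD₁]
    exact iSup_le fun x => cj_le_of_le hCJ ((le_sup_left : X' ≤ _) x.2)
  have hQ₂J : Q₂ ≤ X' ⊔ Y' := by
    rw [hD₂]
    exact iSup_le fun y => cj_le_of_le hQ₁J ((le_sup_right : Y' ≤ _) y.2)
  have hNA : Group.IsNilpotent ↥(X' ⊔ Q₂) := by
    have h1 : X' ⊔ Q₂ = Subgroup.closure ((X ∪ D₂ : Finset G) : Set G) := by
      rw [Finset.coe_union, Subgroup.closure_union]
    rw [h1]
    exact hA _ (by rw [Finset.coe_union]; exact Set.union_subset hX hD₂A)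
  have hNB : Group.IsNilpotent ↥(Y' ⊔ Q₂) := by
    have h1 : Y' ⊔ Q₂ = Subgroup.closure ((Y ∪ D₂ : Finset G) : Set G) := by
      rw [Finset.coe_union, Subgroup.closure_union]
    rw [h1]
    exact hB _ (by rw [Finset.coe_union]; exact Set.union_subset hY hD₂B)
  have hN := hFit G (X' ⊔ Y') (X' ⊔ Q₂) (Y' ⊔ Q₂) (sup_le le_sup_left hQ₂J) (sup_le le_sup_right hQ₂J)
    hA2 hB2 hNA hNB
  refine Ln.nil_mono ?_ hN
  rw [Subgroup.closure_le]
  intro g hg
  have h1 := hXY hg
  exact (sup_le (le_sup_left.trans le_sup_left) (le_sup_left.trans le_sup_right) :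
    X' ⊔ Y' ≤ (X' ⊔ Q₂) ⊔ (Y' ⊔ Q₂)) h1

end Pool.Agent.MPcc2398
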