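import Pool.Agent.Lib.MP_cc2398_al.Spec

/-!
# MP_cc2398_al, Ln/Ptor: groups generated by finitely many elements of finite order, hypercentral of finite length up
to finite index

If `X` is generated by finitely many elements of finite order and a term of its upper central series has finite
index then `X` is finite.
-/

set_option autoImplicit false

namespace Pool.Agent.MPcc2398

universe u

namespace Ln

theorem fin_of_center (hS : S_Schur.{u}) {X : Type u} [Group X] {t : Set X} (ht : t.Finite)
    (hgen : Subgroup.closure t = ⊤) (ho : ∀ y ∈ t, IsOfFinOrder y)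
    (hcen : (Subgroup.center X).index ≠ 0) : Finite X := by
  have hcom : Finite (commutator X) := hS X hcen
  have hsurj : Function.Surjective (Abelianization.of : X →* Abelianization X) :=
    QuotientGroup.mk'_surjective _
  have hfg : Group.FG (Abelianization X) := by
    have h0 : Group.FG X := Group.fg_iff.2 ⟨t, hgen, ht⟩
    exact Group.fg_of_surjective (f := Abelianization.of) hsurj
  have htor : ∀ x : Abelianization X, IsOfFinOrder x := by
    intro x
    obtain ⟨x, rfl⟩ := hsurj x
    have hx : x ∈ Subgroup.closure t := by rw [hgen]; trivial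
    induction hx using Subgroup.closure_induction with
    | mem y hy => exact MonoidHom.isOfFinOrder _ (ho y hy)
    | one => rw [map_one]; exact IsOfFinOrder.one
    | mul a b _ _ ha hb => rw [map_mul]; exact ha.mul hb
    | inv a _ ha => rw [map_inv]; exact ha.inv
  have hab : Finite (Abelianization X) := CommGroup.finite_of_fg_isMulTorsion _ htor
  have hidx : (commutator X).index ≠ 0 := by
    have : Finite (X ⧸ commutator X) := hab
    exact (Subgroup.finiteIndex_iff_finite_quotient.2 this).index_ne_zero
  have hcard : Nat.card X ≠ 0 := by
    rw [← Subgroup.card_mul_index (commutator X)]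
    exact mul_ne_zero Nat.card_pos.ne' hidx
  exact Nat.finite_of_card_ne_zero hcard

theorem ptor_top (hS : S_Schur.{u}) (c : ℕ) : ∀ (X : Type u) [Group X] (t : Set X), t.Finite →
    Subgroup.closure t = ⊤ → (∀ y ∈ t, IsOfFinOrder y) → (Subgroup.upperCentralSeries X c).index ≠ 0 →
    Finite X := by
  induction c with
  | zero =>
    intro X _ t _ _ _ h
    rw [Subgroup.upperCentralSeries_zero, Subgroup.index_bot] at h
    exact Nat.finite_of_card_ne_zero h
  | succ c ih =>
    intro X _ t ht hgen ho h
    refine fin_of_center hS ht hgen ho ?_
    have h1 : (Subgroup.upperCentralSeries (X ⧸ Subgroup.center X) c).index ≠ 0 := by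
      rw [← Subgroup.index_comap_of_surjective _ (QuotientGroup.mk'_surjective (Subgroup.center X))]
      rw [Subgroup.comap_upperCentralSeries_quotient_center]
      exact h
    have h2 : Finite (X ⧸ Subgroup.center X) := by
      refine ih (X ⧸ Subgroup.center X) (QuotientGroup.mk' (Subgroup.center X) '' t) (ht.image _) ?_ ?_ h1
      · rw [← MonoidHom.map_closure, hgen, Subgroup.map_top_of_surjective _ (QuotientGroup.mk'_surjective _)]
      · rintro _ ⟨y, hy, rfl⟩
        exact MonoidHom.isOfFinOrder _ (ho y hy)
    exact (Subgroup.finiteIndex_iff_finite_quotient.2 h2).index_ne_zero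

/-- Finitely many elements of finite order in a subgroup `W` with `Z_c(W)` of finite index generate a finite
group. -/
theorem ptor (hS : S_Schur.{u}) {G : Type u} [Group G] (W : Subgroup G) (c : ℕ)
    (hW : (Subgroup.upperCentralSeries W c).index ≠ 0) (t : Set G) (ht : t.Finite) (htW : t ⊆ W)
    (ho : ∀ y ∈ t, IsOfFinOrder y) : ((Subgroup.closure t : Subgroup G) : Set G).Finite := by
  have hle : Subgroup.closure t ≤ W := (Subgroup.closure_le W).2 htW
  set P := Subgroup.closure t with hP
  -- `Z_c(W) ∩ P ≤ Z_c(P)`
  have key : ∀ (i : ℕ) (p : P), (⟨p, hle p.2⟩ : W) ∈ Subgroup.upperCentralSeries W i →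
      p ∈ Subgroup.upperCentralSeries P i := by
    intro i
    induction i with
    | zero =>
      intro p hp
      rw [Subgroup.upperCentralSeries_zero, Subgroup.mem_bot] at hp ⊢
      have := congrArg Subtype.val hp
      exact Subtype.ext this
    | succ i ih =>
      intro p hp
      rw [Subgroup.mem_upperCentralSeries_succ_iff] at hp ⊢
      intro y
      exact ih _ (hp ⟨y, hle y.2⟩)
  have h1 : (Subgroup.upperCentralSeries P c).index ≠ 0 := by
    have h2 : (Subgroup.comap (Subgroup.inclusion hle) (Subgroup.upperCentralSeries W c)).index ≠ 0 := by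
      rw [Subgroup.index_comap]
      intro h0
      exact hW (Nat.eq_zero_of_zero_dvd (by
        have := Subgroup.relIndex_dvd_index_of_normal (Subgroup.upperCentralSeries W c)
          (Subgroup.inclusion hle).range
        rw [h0] at this; exact this))
    intro h0
    apply h2
    have h3 : Subgroup.comap (Subgroup.inclusion hle) (Subgroup.upperCentralSeries W c) ≤
        Subgroup.upperCentralSeries P c := fun p hp => key c p hp
    have := Subgroup.index_dvd_of_le h3
    rw [h0] at this
    exact Nat.eq_zero_of_zero_dvd this
  have h4 := ptor_top hS c P (((↑) : P → G) ⁻¹' t) (ht.preimage Subtype.coe_injective.injOn)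
    Subgroup.closure_closure_coe_preimage (fun y hy => by
      have := ho y.1 hy
      exact (Submonoid.isOfFinOrder_coe (H := P.toSubmonoid)).1 this) h1
  exact Set.toFinite _

end Ln

end Pool.Agent.MPcc2398
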