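import Pool.Agent.Lib.MP_cc2398_al.Star
import Pool.Agent.Lib.MP_cc2398_al.Ln.Ptor
import Pool.Agent.Lib.MP_cc2398_al.Ln.HP

/-!
# MP_cc2398_al, Ln/StarN: normal closures of locally nilpotent subgroups

If `K` is commensurable with the stabilizer, `A ≤ K` is locally nilpotent and normalised by `K`, `K ≤ L ≠ ⊤`, then
the subgroup generated by the conjugates of `A` under `L` is locally nilpotent.
-/

set_option autoImplicit false

namespace Pool.Agent.MPcc2398

universe u

namespace Ln

theorem LN_cj {G : Type u} [Group G] {A : Subgroup G} (h : LN A) (x : G) : LN (cj x A) := by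
  classical
  intro s hs
  have h1 : Group.IsNilpotent ↥(Subgroup.closure ((s.image (fun g => x⁻¹ * g * x) : Finset G) : Set G)) := by
    apply h
    intro g hg
    obtain ⟨y, hy, rfl⟩ := Finset.mem_image.1 (Finset.mem_coe.1 hg)
    exact mem_cj'.1 (hs hy)
  have h2 : Subgroup.closure (s : Set G) =
      (Subgroup.closure ((s.image (fun g => x⁻¹ * g * x) : Finset G) : Set G)).map
        (MulAut.conj x).toMonoidHom := by
    rw [MonoidHom.map_closure]
    congr 1
    ext g
    simp only [Finset.coe_image, Set.mem_image, MulEquiv.coe_toMonoidHom, MulAut.conj_apply,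
      exists_exists_and_eq_and, Finset.mem_coe]
    constructor
    · intro hg
      exact ⟨g, hg, by group⟩
    · rintro ⟨y, hy, rfl⟩
      have : x * (x⁻¹ * y * x) * x⁻¹ = y := by group
      rw [this]; exact hy
  rw [h2]
  have e := (Subgroup.closure ((s.image (fun g => x⁻¹ * g * x) : Finset G) : Set G)).equivMapOfInjective
    (MulAut.conj x).toMonoidHom (MulAut.conj x).injective
  exact (Group.isNilpotent_congr e).1 h1

theorem sSup_LN (hFit : S_Fit.{u}) {G : Type u} [Group G] (M : Subgroup G) (𝒮 : Set (Subgroup G))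
    (hfin : 𝒮.Finite) (h : ∀ B ∈ 𝒮, B ≤ M ∧ Inv M B ∧ LN B) :
    sSup 𝒮 ≤ M ∧ Inv M (sSup 𝒮) ∧ LN (sSup 𝒮) := by
  induction 𝒮, hfin using Set.Finite.induction_on with
  | empty =>
    rw [sSup_empty]
    refine ⟨bot_le, fun l _ m hm => ?_, ?_⟩
    · rw [Subgroup.mem_bot] at hm ⊢; rw [hm]; simp
    · intro s hs
      refine nil_mono ((Subgroup.closure_le _).2 hs) ?_
      exact Star.nilp_of_comm (fun a ha b hb => by rw [Subgroup.mem_bot] at ha hb; rw [ha, hb])
  | @insert B 𝒮 _ _ ih =>
    obtain ⟨h1, h2, h3⟩ := ih (fun B' hB' => h B' (Set.mem_insert_of_mem _ hB'))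
    obtain ⟨h4, h5, h6⟩ := h B (Set.mem_insert _ _)
    rw [sSup_insert]
    exact ⟨sup_le h4 h1, h5.sup h2, vHP hFit M B (sSup 𝒮) h4 h1 h5 h2 h6 h3⟩

/-- a finite subset of `closure U` lies in `closure t`, `t ⊆ U` finite -/
theorem fin_cl {G : Type u} [Group G] (U : Set G) (s : Finset G)
    (hs : (s : Set G) ⊆ (Subgroup.closure U : Subgroup G)) :
    ∃ t : Finset G, (t : Set G) ⊆ U ∧ (s : Set G) ⊆ (Subgroup.closure (t : Set G) : Subgroup G) := by
  classical
  have h1 : ∀ g ∈ Subgroup.closure U, ∃ t : Finset G, (t : Set G) ⊆ U ∧ g ∈ Subgroup.closure (t : Set G) := by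
    intro g hg
    induction hg using Subgroup.closure_induction with
    | mem y hy => exact ⟨{y}, by simpa using hy, Subgroup.subset_closure (by simp)⟩
    | one => exact ⟨∅, by simp, Subgroup.one_mem _⟩
    | mul a b _ _ ha hb =>
      obtain ⟨t, ht, h⟩ := ha
      obtain ⟨t', ht', h'⟩ := hb
      refine ⟨t ∪ t', by rw [Finset.coe_union]; exact Set.union_subset ht ht', ?_⟩
      exact Subgroup.mul_mem _ (Subgroup.closure_mono (by simp) h) (Subgroup.closure_mono (by simp) h')
    | inv a _ ha =>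
      obtain ⟨t, ht, h⟩ := ha
      exact ⟨t, ht, Subgroup.inv_mem _ h⟩
  induction s using Finset.induction_on with
  | empty => exact ⟨∅, by simp, by simp⟩
  | insert a s _ ih =>
    rw [Finset.coe_insert, Set.insert_subset_iff] at hs
    obtain ⟨t, ht, h⟩ := ih hs.2
    obtain ⟨t', ht', h'⟩ := h1 a hs.1
    refine ⟨t ∪ t', by rw [Finset.coe_union]; exact Set.union_subset ht ht', ?_⟩
    rw [Finset.coe_insert, Set.insert_subset_iff]
    refine ⟨Subgroup.closure_mono (by simp) h', fun g hg => Subgroup.closure_mono (by simp) (h hg)⟩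

/-- The subgroup generated by the elements of finite order of `B`. -/
def TS {G : Type u} [Group G] (B : Subgroup G) : Subgroup G :=
  Subgroup.closure {g | g ∈ B ∧ IsOfFinOrder g}

theorem TS_le {G : Type u} [Group G] (B : Subgroup G) : TS B ≤ B :=
  (Subgroup.closure_le B).2 (fun _ hg => hg.1)

theorem inv_TS {G : Type u} [Group G] {K B : Subgroup G} (h : Inv K B) : Inv K (TS B) := by
  refine inv_closure_right fun k hk g hg => Subgroup.subset_closure ⟨h k hk g hg.1, ?_⟩
  have := MonoidHom.isOfFinOrder (MulAut.conj k).toMonoidHom hg.2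
  simpa using this

/-- torsion-freeness from `LFlaw` -/
theorem tf_of (hLF : S_LFlaw.{u}) {G : Type u} [Group G] {H : Subgroup G} (hSP : SP H) (K B : Subgroup G)
    (hK : Co H K) (hB : B ≤ K) (hKB : Inv K B)
    (hfin : ∀ t : Finset G, (t : Set G) ⊆ B → (∀ g ∈ t, IsOfFinOrder g) →
      ((Subgroup.closure (t : Set G) : Subgroup G) : Set G).Finite) :
    ∀ g ∈ B, IsOfFinOrder g → g = 1 := by
  have h1 : LF (TS B) := by
    intro s hs
    obtain ⟨t, ht, hst⟩ := fin_cl _ s hs
    refine (hfin t (fun g hg => (ht hg).1) (fun g hg => (ht hg).2)).subset ?_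
    exact (Subgroup.closure_le _).2 hst
  have h2 := hLF G H hSP K (TS B) hK ((TS_le B).trans hB) (inv_TS hKB) h1
  intro g hg hg'
  have h3 : g ∈ TS B := Subgroup.subset_closure ⟨hg, hg'⟩
  rw [h2, Subgroup.mem_bot] at h3
  exact h3

theorem tf_LN (hSchur : S_Schur.{u}) (hLF : S_LFlaw.{u}) {G : Type u} [Group G] {H : Subgroup G} (hSP : SP H)
    (K B : Subgroup G) (hK : Co H K) (hB : B ≤ K) (hKB : Inv K B) (hLN : LN B) :
    ∀ g ∈ B, IsOfFinOrder g → g = 1 := by
  refine tf_of hLF hSP K B hK hB hKB ?_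
  intro t ht ho
  obtain ⟨c, hc⟩ := (hLN t ht).nilpotent
  refine ptor hSchur (Subgroup.closure (t : Set G)) c ?_ _ t.finite_toSet Subgroup.subset_closure ho
  rw [hc, Subgroup.index_top]
  exact one_ne_zero

end Ln

open Ln in
/-- **StarN.** -/
theorem vStarN (hSchur : S_Schur.{u}) (hCom : S_Com.{u}) (hCore : S_Core.{u}) (hLFlaw : S_LFlaw.{u})
    (hFit : S_Fit.{u}) (hIsol : S_Isol.{u}) (hNil : S_Nil.{u}) (G : Type u) [Group G] (H : Subgroup G) (hSP : SP H)
    (K A L : Subgroup G) (hK : Co H K) (hAK : A ≤ K) (hKA : Inv K A) (hLN : LN A) (hKL : K ≤ L) (hL : L ≠ ⊤) :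
    LN (NC L A) := by
  classical
  obtain ⟨c1, c2, c3, c4, c5, c6, c7⟩ := hCom G H hSP.tb
  obtain ⟨M, hMK, hM, hLM⟩ := c6 K L hK hKL hL
  have hCoL : Co H L := c2 L hL (fun h0 => hK.1 (Subgroup.relIndex_eq_zero_of_le_left hKL h0))
  obtain ⟨k1, k2, ⟨k3, k3'⟩, k4, k5⟩ := hCore G K L A M hKL (c3 K L hK hL) hAK hKA hMK (c3 M L hM hL) hLM
  set S := SM L A M with hS
  set D := NC L A with hD
  have hDL : D ≤ L := NC_le (hAK.trans hKL)
  have hLD : Inv L D := inv_NC _ _
  -- (a)
  have hSLN : LN S := by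
    have h0 : S = sSup (Set.range fun x : L => cj (x : G) A ⊓ M) := by
      rw [hS, SM, iSup]
    have hfin : (Set.range fun x : L => cj (x : G) A ⊓ M).Finite := by
      have : (Set.range fun x : L => cj (x : G) A ⊓ M) = (fun B => B ⊓ M) '' (Set.range fun x : L => cj (x : G) A) := by
        rw [← Set.range_comp]; rfl
      rw [this]; exact k1.image _
    have := (sSup_LN hFit M _ hfin (by
      rintro _ ⟨x, rfl⟩
      exact ⟨inf_le_right, (k2 x x.2).inf (inv_self M), (LN_cj hLN (x : G)).mono inf_le_left⟩)).2.2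
    rw [h0]; exact this
  -- (b)
  have hB : ∀ x ∈ L, LN (cj x A ⊔ S) ∧ ∀ g ∈ cj x A ⊔ S, IsOfFinOrder g → g = 1 := by
    intro x hx
    have hxK : cj x K ≤ L := cj_le_of_le hKL hx
    have hxM : cj x M = M := cj_eq_of_inv hLM hx
    have hSK : S ≤ cj x K := k3.trans (by rw [← hxM]; exact cj_mono x hMK)
    have hAK' : cj x A ≤ cj x K := cj_mono x hAK
    have h1 := vHP hFit (cj x K) (cj x A) S hAK' hSK (hKA.cj x) (k4.mono hxK) (LN_cj hLN x) hSLN
    exact ⟨h1, tf_LN hSchur hLFlaw hSP (cj x K) (cj x A ⊔ S) (c4 K x hK) (sup_le hAK' hSK)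
      ((hKA.cj x).sup (k4.mono hxK)) h1⟩
  -- (c), (d)
  have hP : ∀ t : Finset G, (t : Set G) ⊆ (⋃ x ∈ L, (cj x A : Set G)) →
      ∃ c : ℕ, (Subgroup.upperCentralSeries (Subgroup.closure (t : Set G)) c).index ≠ 0 := by
    intro t ht
    set W := Subgroup.closure (t : Set G) with hW
    have hWD : W ≤ D := by
      rw [hW, Subgroup.closure_le]
      intro g hg
      have := ht hg
      simp only [Set.mem_iUnion] at this
      obtain ⟨x, hx, hgx⟩ := this
      exact cj_le_NC hx hgx
    have hWL : W ≤ L := hWD.trans hDL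
    have hSW : S.relIndex W ≠ 0 := fun h0 => k5 (Subgroup.relIndex_eq_zero_of_le_right hWD h0)
    set Z := W ⊓ S with hZ
    have hZW : Z ≤ W := inf_le_left
    have hZS : Z ≤ S := inf_le_right
    have hZidx : Z.relIndex W ≠ 0 := by
      rw [hZ, inf_comm, Subgroup.inf_relIndex_right]; exact hSW
    have hWZ : Inv W Z := (inv_self W).inf (k4.mono hWL)
    -- `Z` is finitely generated
    have hWfg : Group.FG W := by
      rw [Group.fg_iff_subgroup_fg]; exact ⟨t, rfl⟩
    have hZfg : Z.FG := by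
      have hfi : (Z.subgroupOf W).FiniteIndex := ⟨hZidx⟩
      have h1' : Group.FG (Z.subgroupOf W) := Subgroup.fg_of_index_ne_zero _
      have h1 : (Z.subgroupOf W).FG := (Group.fg_iff_subgroup_fg _).1 h1'
      have h2 : ((Z.subgroupOf W).map W.subtype).FG := by
        obtain ⟨u, hu⟩ := h1
        exact ⟨u.image W.subtype, by rw [Finset.coe_image, ← MonoidHom.map_closure, hu]⟩
      rwa [Subgroup.subgroupOf_map_subtype, inf_eq_left.2 hZW] at h2
    obtain ⟨z, hz⟩ := hZfg
    have hzS : (z : Set G) ⊆ S := fun g hg => hZS (by rw [← hz]; exact Subgroup.subset_closure hg)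
    have hZnil : Group.IsNilpotent Z := by
      have := hSLN z hzS
      rwa [hz] at this
    -- step
    have hstep : ∀ i : ℕ, ∀ s : G, Star.ZP Z (i + 1) s → ∀ y ∈ t, Star.ZP Z i (s * y * s⁻¹ * y⁻¹) := by
      intro i s hs y hy
      have hyt := ht hy
      simp only [Set.mem_iUnion] at hyt
      obtain ⟨x, hx, hyx⟩ := hyt
      obtain ⟨hBLN, hBtf⟩ := hB x hx
      have hyW : y ∈ W := Subgroup.subset_closure hy
      set X := Z ⊔ Subgroup.zpowers y with hX
      have hXcl : X = Subgroup.closure ((z ∪ {y} : Finset G) : Set G) := by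
        rw [hX, Finset.coe_union, Subgroup.closure_union, hz, Finset.coe_singleton,
          Subgroup.zpowers_eq_closure]
      have hXB : X ≤ cj x A ⊔ S := by
        refine sup_le (hZS.trans le_sup_right) ?_
        rw [Subgroup.zpowers_le]
        exact (le_sup_left : cj x A ≤ _) hyx
      have hXnil : Group.IsNilpotent X := by
        rw [hXcl]
        apply hBLN
        intro g hg
        exact hXB (by rw [hXcl]; exact Subgroup.subset_closure hg)
      have hXW : X ≤ W := by
        refine sup_le hZW ?_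
        rw [Subgroup.zpowers_le]; exact hyW
      have hZX : Z ≤ X := le_sup_left
      have htf : ∀ z ∈ Subgroup.center X, ∀ n : ℕ, 0 < n → z ^ n = 1 → z = 1 := by
        intro g _ n hn hgn
        have h1 : IsOfFinOrder (g : G) := isOfFinOrder_iff_pow_eq_one.2 ⟨n, hn, by
          have := congrArg Subtype.val hgn
          simpa using this⟩
        exact Subtype.ext (hBtf g (hXB g.2) h1)
      have hpow : ∀ g : X, ∃ n : ℕ, 0 < n ∧ g ^ n ∈ Z.subgroupOf X := by
        intro g
        obtain ⟨n, hn, _, hn'⟩ := Subgroup.exists_pow_mem_of_relIndex_ne_zero hZidx (hXW g.2)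
        exact ⟨n, hn, Subgroup.mem_subgroupOf.2 (by simpa using hn'.1)⟩
      have hiso := hIsol _ (Z.subgroupOf X) hXnil htf hpow (i + 1)
      have hsZ : s ∈ Z := Star.zp_mem hs
      have h1 : Star.ZP (Z.subgroupOf X) (i + 1) (⟨s, hZX hsZ⟩ : ↥X) := (Star.zp_sub hZX _ _).2 hs
      obtain ⟨h2, h3⟩ := (Star.zp_iff _ _ _).1 h1
      have h4 := hiso ⟨_, h2⟩ h3
      have h5 : Star.ZP X (i + 1) s := (Star.zp_iff _ _ _).2 ⟨hZX hsZ, h4⟩
      have hyX : y ∈ X := (le_sup_right : Subgroup.zpowers y ≤ _) (Subgroup.mem_zpowers y)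
      have h6 := h5.2 y hyX
      refine Star.zp_mono hZX ?_ h6
      have h7 := hWZ y hyW s⁻¹ (Z.inv_mem hsZ)
      have : s * y * s⁻¹ * y⁻¹ = s * (y * s⁻¹ * y⁻¹) := by group
      rw [this]
      exact Z.mul_mem hsZ h7
    have hle : ∀ i : ℕ, ∀ s : G, Star.ZP Z i s → Star.ZP W i s := by
      intro i
      induction i with
      | zero => intro s hs; exact hs
      | succ i ih =>
        intro s hs
        have hsW : s ∈ W := hZW (Star.zp_mem hs)
        refine ⟨hsW, ?_⟩
        let T : Subgroup G :=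
          { carrier := {y | y ∈ W ∧ s * y * s⁻¹ * y⁻¹ ∈ Star.ZG W i}
            one_mem' := ⟨W.one_mem, by simp⟩
            mul_mem' := by
              rintro a b ⟨ha, ha'⟩ ⟨hb, hb'⟩
              refine ⟨W.mul_mem ha hb, ?_⟩
              have h8 := Star.inv_ZG W i a ha _ hb'
              have : s * (a * b) * s⁻¹ * (a * b)⁻¹ = (s * a * s⁻¹ * a⁻¹) * (a * (s * b * s⁻¹ * b⁻¹) * a⁻¹) := by
                group
              show s * (a * b) * s⁻¹ * (a * b)⁻¹ ∈ _
              rw [this]
              exact (Star.ZG W i).mul_mem ha' h8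
            inv_mem' := by
              rintro a ⟨ha, ha'⟩
              refine ⟨W.inv_mem ha, ?_⟩
              have h8 := Star.inv_ZG W i a⁻¹ (W.inv_mem ha) _ ((Star.ZG W i).inv_mem ha')
              have : s * a⁻¹ * s⁻¹ * a⁻¹⁻¹ = a⁻¹ * (s * a * s⁻¹ * a⁻¹)⁻¹ * a⁻¹⁻¹ := by
                group
              show s * a⁻¹ * s⁻¹ * a⁻¹⁻¹ ∈ _
              rw [this]
              exact h8 }
        have hWT : W ≤ T := by
          rw [hW, Subgroup.closure_le]
          intro y hy
          exact ⟨Subgroup.subset_closure hy, (Star.mem_ZG _ _ _).2 (ih _ (hstep i s hs y hy))⟩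
        intro y hy
        exact (Star.mem_ZG _ _ _).1 (hWT hy).2
    obtain ⟨c, hc⟩ := Star.exists_c hZnil
    refine ⟨c, ?_⟩
    have h1 : Z.subgroupOf W ≤ Subgroup.upperCentralSeries W c := by
      intro g hg
      obtain ⟨_, h3⟩ := (Star.zp_iff _ _ _).1 (hle c g (hc g (Subgroup.mem_subgroupOf.1 hg)))
      exact h3
    intro h0
    apply hZidx
    have := Subgroup.index_dvd_of_le h1
    rw [h0] at this
    exact Nat.eq_zero_of_zero_dvd this
  -- finite subsets of `D`
  have hDcl : D = Subgroup.closure (⋃ x ∈ L, (cj x A : Set G)) := by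
    apply le_antisymm
    · rw [hD, NC]
      refine iSup_le fun x => ?_
      intro g hg
      refine Subgroup.subset_closure ?_
      simp only [Set.mem_iUnion]
      exact ⟨x, x.2, hg⟩
    · rw [Subgroup.closure_le]
      intro g hg
      simp only [Set.mem_iUnion] at hg
      obtain ⟨x, hx, hgx⟩ := hg
      exact cj_le_NC hx hgx
  -- (e)
  have hDtf : ∀ g ∈ D, IsOfFinOrder g → g = 1 := by
    refine tf_of hLFlaw hSP L D hCoL hDL hLD ?_
    intro t' ht' ho
    obtain ⟨t, ht, htt⟩ := fin_cl _ t' (by rw [← hDcl]; exact ht')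
    obtain ⟨c, hc⟩ := hP t ht
    exact ptor hSchur _ c hc _ t'.finite_toSet htt ho
  -- (f)
  intro s hs
  obtain ⟨t, ht, hst⟩ := fin_cl _ s (by rw [← hDcl]; exact hs)
  obtain ⟨c, hc⟩ := hP t ht
  have hWD : Subgroup.closure (t : Set G) ≤ D := by
    rw [hDcl]; exact Subgroup.closure_mono ht
  refine nil_mono ((Subgroup.closure_le _).2 hst) (hNil _ c hc ?_)
  intro N _ hN
  rw [eq_bot_iff]
  intro g hg
  have h1 := hN {g} (by simpa using hg)
  have h2 : IsOfFinOrder g := by
    have h3 : ((Subgroup.zpowers g : Subgroup ↥(Subgroup.closure (t : Set G))) :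
        Set ↥(Subgroup.closure (t : Set G))).Finite := by
      refine h1.subset ?_
      rw [Finset.coe_singleton, Subgroup.zpowers_eq_closure]
    rw [← finite_zpowers]
    exact h3
  rw [Subgroup.mem_bot]
  have h4 : IsOfFinOrder (g : G) := (Submonoid.isOfFinOrder_coe (H := (Subgroup.closure (t : Set G)).toSubmonoid)).2 h2
  exact Subtype.ext (hDtf g (hWD g.2) h4)

end Pool.Agent.MPcc2398
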