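import Pool.Agent.Lib.MP_cc2398_al.All
import Pool.Agent.Lib.MP_cc2398_al.Ln.StarN

/-!
# MP_cc2398_al, Ln/MainN: no locally nilpotent normal subgroups

Let `G` be a totally imprimitive barely transitive group which is not locally finite, `R` its largest proper normal
subgroup, `K` a subgroup commensurable with a point stabilizer, `N` a normal subgroup of `K` such that `N R / R` is
locally nilpotent.  Then `N ≤ R`.
-/

set_option autoImplicit false

namespace Pool.Agent.MPcc2398

universe u v

/-- **AbN.**  The simple case. -/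
theorem aAbN {G : Type u} [Group G] {H : Subgroup G} (hSP : SP H) (K A : Subgroup G) (hK : Co H K) (hAK : A ≤ K)
    (hKA : Inv K A) (hLN : LN A) : A = ⊥ := by
  classical
  by_contra hA
  have hTB := hSP.tb
  obtain ⟨c1, c2, c3, c4, c5, c6, c7⟩ := aCom G H hTB
  have hN : (NC (⊤ : Subgroup G) A).Normal := ⟨fun g hg x => inv_NC ⊤ A x (Subgroup.mem_top x) g hg⟩
  have htop : NC (⊤ : Subgroup G) A = ⊤ := by
    rcases hSP.simple _ hN with h | h
    · exact absurd (le_bot_iff.1 (h ▸ le_NC ⊤ A)) hA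
    · exact h
  have hloc : ∀ s : Finset G, ∃ X : Subgroup G, (s : Set G) ⊆ X ∧ Group.IsNilpotent X := by
    intro s
    obtain ⟨t, ht⟩ := Ab.fin_NC' A htop s
    obtain ⟨L, h1, _, h3, h4⟩ := aBig G H hTB K (c1 K hK) t
    exact ⟨Subgroup.closure (s : Set G), Subgroup.subset_closure,
      vStarN aSchur aCom aCore aLFlaw aFit aIsol aNil G H hSP K A L hK hAK hKA hLN h3 h1 s (ht L h4)⟩
  have hab := aSimp G hSP.simple hloc
  have hne : ∃ g : G, g ≠ 1 := by
    by_contra h
    push Not at h
    have : Subsingleton G := ⟨fun a b => by rw [h a, h b]⟩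
    have h0 := hTB.idx
    have h1 : H = ⊤ := Subsingleton.elim _ _
    rw [h1, Subgroup.index_top] at h0
    exact one_ne_zero h0
  obtain ⟨g, hg⟩ := hne
  have hzn : (Subgroup.zpowers g).Normal := by
    refine ⟨fun n hn x => ?_⟩
    rw [hab x n, mul_assoc, mul_inv_cancel, mul_one]
    exact hn
  rcases hSP.simple _ hzn with h | h
  · exact hg (by simpa using h)
  · exact hTB.cyc g h

namespace Ln

theorem LN_of_section {G : Type u} [Group G] (R : Subgroup G) [R.Normal] (N : Subgroup G)
    (h : ∀ s : Finset G, (s : Set G) ⊆ N → ∃ c : ℕ, (Subgroup.closure (s : Set G)).lowerCentralSeries c ≤ R) :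
    LN (N.map (QuotientGroup.mk' R)) := by
  classical
  intro s hs
  have h1 : ∀ y ∈ N.map (QuotientGroup.mk' R), ∃ x, x ∈ N ∧ QuotientGroup.mk' R x = y :=
    fun y hy => Subgroup.mem_map.1 hy
  choose! g hg using h1
  obtain ⟨c, hc⟩ := h (s.image g) (by
    intro x hx
    obtain ⟨y, hy, rfl⟩ := Finset.mem_image.1 (Finset.mem_coe.1 hx)
    exact (hg y (hs hy)).1)
  have h3 : (Subgroup.closure (s : Set (G ⧸ R)) : Subgroup (G ⧸ R)) ≤
      (Subgroup.closure ((s.image g : Finset G) : Set G)).map (QuotientGroup.mk' R) := by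
    rw [Subgroup.closure_le]
    intro y hy
    refine ⟨g y, Subgroup.subset_closure (Finset.mem_coe.2 (Finset.mem_image_of_mem g hy)), (hg y (hs hy)).2⟩
  refine nil_mono h3 ((Subgroup.isNilpotent_iff_lowerCentralSeries _).2 ⟨c, ?_⟩)
  rw [← Subgroup.map_lowerCentralSeries, Subgroup.map_eq_bot_iff, QuotientGroup.ker_mk']
  exact hc

end Ln

/-- **MainN.** -/
theorem aMainN (G : Type u) [Group G] (H : Subgroup G) (hTB : TB H)
    (hnlf : ¬ LF (⊤ : Subgroup G)) (R : Subgroup G) (hRn : R.Normal) (hRt : R ≠ ⊤) (hRLF : LF R)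
    (hRmax : ∀ N : Subgroup G, N.Normal → N ≠ ⊤ → N ≤ R) (K N : Subgroup G) (hK : Co H K) (hNK : N ≤ K)
    (hKN : Inv K N)
    (h : ∀ s : Finset G, (s : Set G) ⊆ N → ∃ c : ℕ, (Subgroup.closure (s : Set G)).lowerCentralSeries c ≤ R) :
    N ≤ R := by
  set π := QuotientGroup.mk' R with hπ
  have hker : ∀ g : G, π g = 1 ↔ g ∈ R := fun g => by
    rw [← MonoidHom.mem_ker, hπ, QuotientGroup.ker_mk']
  have hsurj : Function.Surjective π := QuotientGroup.mk'_surjective R
  have hSP : SP (H.map π) := by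
    refine ⟨aQuot G H R hTB hRt, ?_, ?_⟩
    · intro N' hN'
      have hn : (N'.comap π).Normal := hN'.comap π
      have hNN : (N'.comap π).map π = N' := Subgroup.map_comap_eq_self_of_surjective hsurj N'
      by_cases ht : N'.comap π = ⊤
      · right
        rw [← hNN, ht, Subgroup.map_top_of_surjective π hsurj]
      · left
        have hle := hRmax _ hn ht
        rw [eq_bot_iff, ← hNN]
        rintro _ ⟨g, hg, rfl⟩
        rw [Subgroup.mem_bot]
        exact (hker g).2 (hle hg)
    · intro hLF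
      exact hnlf (aExt G R ⊤ hRLF (fun s _ => Main.section_of_lf R hLF s))
  have hK' : Co (H.map π) (K.map π) := Main.co_map π hK
  have h1 := aAbN hSP (K.map π) (N.map π) hK' (Subgroup.map_mono hNK) (Main.inv_map π hKN)
    (Ln.LN_of_section R N h)
  intro g hg
  rw [← hker]
  have : π g ∈ N.map π := ⟨g, hg, rfl⟩
  rw [h1, Subgroup.mem_bot] at this
  exact this

end Pool.Agent.MPcc2398
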